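import Mathlib
import Pool.Agent.Q51.PolyDegDefs
import Pool.Agent.Q51.PolyDegProof
import Pool.Agent.Q51.PolyDegCount

set_option autoImplicit false

/-!
For every `n ≥ 1` (in particular for every `n ≥ 3`) there is a constant `a_n ≤ 6 n` such that every
isolated critical point `f : (ℂⁿ,0) → (ℂ,0)` of Milnor number `μ` is right equivalent to a
polynomial of degree at most `a_n μ^{1/n}`.
-/

namespace Pool.Agent.Results.MP_bcd42e_ag.PolynomialDegree

open Q51.PolyDeg

/-- For every `n ≥ 1` there is a constant `a > 0`, in fact `a ≤ 6 n`, such that for every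
holomorphic germ `f` in `n` variables with an isolated critical point at the origin the least
degree `d(f)` of a polynomial right equivalent to `f` (which exists) satisfies
`d(f) ≤ a μ(f)^{1/n}`. -/
theorem result : ∀ n : ℕ, 1 ≤ n → ∃ a : ℝ, 0 < a ∧ a ≤ 6 * n ∧
    ∀ f : (Fin n → ℂ) → ℂ, IsolatedCritical f →
      (∃ p : MvPolynomial (Fin n) ℂ, p.totalDegree = analyticOrder f ∧
        RightEquivalent f fun x => MvPolynomial.eval x p) ∧
      (analyticOrder f : ℝ) ≤ a * (milnorNumber f : ℝ) ^ (1 / (n : ℝ)) := by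
  intro n hn
  have hn' : (0 : ℝ) < n := by
    have : 0 < n := hn
    exact_mod_cast this
  refine ⟨6 * n, by positivity, le_rfl, fun f hf => ?_⟩
  obtain ⟨m, hm, hm'⟩ := exists_degree n hn (milnorNumber f)
  obtain ⟨ψ, P, hPd, hψ, hP⟩ := exists_approx ⟨f, hf.analytic⟩ hf (n * m)
    (lt_of_lt_of_le hm (finrank_restrictTotalDegree_ge n m))
  have hR := rightEquivalent_of_approx ⟨f, hf.analytic⟩ hf.critical ψ P hψ hP
  have hne : {d | ∃ p : MvPolynomial (Fin n) ℂ,
      p.totalDegree = d ∧ RightEquivalent f fun x => MvPolynomial.eval x p}.Nonempty :=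
    ⟨P.totalDegree, P, rfl, hR⟩
  refine ⟨Nat.sInf_mem hne, ?_⟩
  have h1 : analyticOrder f ≤ P.totalDegree := Nat.sInf_le ⟨P, rfl, hR⟩
  have h2 : (analyticOrder f : ℝ) ≤ (2 * (n * m) : ℕ) := by
    exact_mod_cast h1.trans (hPd.trans (Nat.sub_le _ _))
  refine h2.trans (le_trans (le_of_eq ?_) hm')
  push_cast
  ring

end Pool.Agent.Results.MP_bcd42e_ag.PolynomialDegree
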